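import Pool.Agent.ATP.Stmts

/-!
# Squad ATP, row PMK: PMX for a block of a subgroup which contains `C(Q)`
-/

noncomputable section

namespace Pool.Agent.PP.TP.H82

open Pool.Agent.Helper51_AWC Pool.Agent.Helper79_WRA Pool.Agent.PP Pool.Agent.PP.KF
open Pool.Agent.PP.K9 Pool.Agent.PP.K9.H97 Pool.Agent.PP.H75 Pool.Agent.PP.T3 Pool.Agent.PP.T2
open Pool.Agent.PP.TB

attribute [local instance] Ideal.Quotient.field

theorem mem_cen_sub {G : Type} [Group G] {K Q : Subgroup G} (hQK : Q ≤ K) (t : K) :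
    t ∈ Subgroup.centralizer ((Q.subgroupOf K : Subgroup K) : Set K) ↔
      (t : G) ∈ Subgroup.centralizer (Q : Set G) := by
  rw [Subgroup.mem_centralizer_iff, Subgroup.mem_centralizer_iff]
  constructor
  · intro h q hq
    have h1 := h ⟨q, hQK hq⟩ (Subgroup.mem_subgroupOf.2 hq)
    exact congrArg Subtype.val h1
  · intro h q hq
    have h1 := h (q : G) (Subgroup.mem_subgroupOf.1 hq)
    exact Subtype.ext h1

theorem br_sub {F G : Type} [Field F] [Group G] {K Q : Subgroup G} (hQK : Q ≤ K) (f : G → F) :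
    br (Q.subgroupOf K) (fun t : K => f t) = fun t : K => br Q f t := by
  funext t
  unfold br
  by_cases h : (t : G) ∈ Subgroup.centralizer (Q : Set G)
  · rw [if_pos ((mem_cen_sub hQK t).2 h), if_pos h]
  · rw [if_neg (fun h' => h ((mem_cen_sub hQK t).1 h')), if_neg h]

theorem conj_map {G : Type} [Group G] {K V : Subgroup G} (hVK : V ≤ K) (x : K) :
    (conjS x (V.subgroupOf K)).map K.subtype = conjS (x : G) V := by
  ext g
  constructor
  · rintro ⟨y, ⟨v, hv, rfl⟩, rfl⟩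
    exact ⟨(v : G), Subgroup.mem_subgroupOf.1 hv, rfl⟩
  · rintro ⟨v, hv, rfl⟩
    exact ⟨x * ⟨v, hVK hv⟩ * x⁻¹, ⟨⟨v, hVK hv⟩, Subgroup.mem_subgroupOf.2 hv, rfl⟩, rfl⟩

theorem pmk (hPMX : PmxStmt) (hPTR : PtrStmt) : PmkStmt := by
  intro ℓ _ M _ hM G _ _ K V f hf hVK hT Q b hQ hQK hCK hund
  obtain ⟨hq, hlift⟩ := hPTR ℓ (FF M) G K Q hQK hCK b hQ
  have hbr : mulF (br (Q.subgroupOf K) (fun t : K => f t)) (fun t : K => b t) =
      fun t : K => b t := by
    rw [br_sub hQK f]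
    have hs : ∀ x, x ∉ K → br Q f x = 0 := by
      intro x hx
      unfold br
      rw [if_neg (fun h => hx (hCK h))]
    rw [← mulF_res K b hs, hund]
  obtain ⟨x, γ', hpq, hle⟩ := hPMX ℓ M hM K (fun t : K => f t) (V.subgroupOf K) hf.blk hT
    (Q.subgroupOf K) (fun t : K => b t) hq hbr
  obtain ⟨h1, h2⟩ := hlift (conjS x (V.subgroupOf K)) γ' hle
  rw [conj_map hVK x] at h1 h2
  exact ⟨x, x.2, _, h1, h2⟩

end Pool.Agent.PP.TP.H82
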